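import Mathlib

/-!
# The isomorphism problem for automaton groups: definitions

`Automaton`, its group and its table; self-similar groups `SS`; the group `Aff ι = ℤ² ⋊ F` of a
homomorphism `ι : F → SL₂(ℤ)`, which acts on the 4-ary tree of pairs of 2-adic integers; the
automata of finite lists of relators.
-/

set_option autoImplicit false

namespace Pool.Agent.H79Iso

/-! ### automata -/

/-- A finite invertible automaton with states `0, ..., m-1` over the alphabet `0, ..., n-1`. -/
structure Automaton where
  /-- number of states -/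
  m : ℕ
  /-- number of letters -/
  n : ℕ
  pos : 0 < m
  two_le : 2 ≤ n
  /-- the transition map -/
  trans : Fin m → Fin n → Fin m
  /-- the output map; each state gives a permutation of the alphabet -/
  out : Fin m → Equiv.Perm (Fin n)

namespace Automaton

/-- The action of a state on finite words: `s(ε) = ε` and `s(xw) = out(s,x) t(w)`,
`t = trans(s,x)`. -/
def act (A : Automaton) : Fin A.m → List (Fin A.n) → List (Fin A.n)
  | _, [] => []
  | s, x :: w => A.out s x :: A.act (A.trans s x) w

/-- The inverse of the action of a state. -/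
def actInv (A : Automaton) : Fin A.m → List (Fin A.n) → List (Fin A.n)
  | _, [] => []
  | s, x :: w => (A.out s).symm x :: A.actInv (A.trans s ((A.out s).symm x)) w

theorem actInv_act (A : Automaton) (s : Fin A.m) (w : List (Fin A.n)) :
    A.actInv s (A.act s w) = w := by
  induction w generalizing s with
  | nil => rfl
  | cons x w ih => simp [act, actInv, ih]

theorem act_actInv (A : Automaton) (s : Fin A.m) (w : List (Fin A.n)) :
    A.act s (A.actInv s w) = w := by
  induction w generalizing s with
  | nil => rfl
  | cons x w ih => simp [act, actInv, ih]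

/-- The permutation of the set of words given by a state. -/
def perm (A : Automaton) (s : Fin A.m) : Equiv.Perm (List (Fin A.n)) where
  toFun := A.act s
  invFun := A.actInv s
  left_inv := A.actInv_act s
  right_inv := A.act_actInv s

/-- The self-similar group `G(A)` generated by the states. -/
def group (A : Automaton) : Subgroup (Equiv.Perm (List (Fin A.n))) :=
  Subgroup.closure (Set.range A.perm)

/-- The table of an automaton: the row of the state `s` lists, for all letters `x`, the pairs
`(trans(s,x), out(s,x))`. -/
def table (A : Automaton) : List (List (ℕ × ℕ)) :=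
  List.ofFn fun s => List.ofFn fun x => ((A.trans s x : ℕ), (A.out s x : ℕ))

end Automaton

/-- The automaton with the list `L` of states. -/
def mkAut {σ : Type} [DecidableEq σ] (n : ℕ) (hn : 2 ≤ n) (L : List σ) (hL : L ≠ [])
    (next : σ → Fin n → σ) (outp : σ → Equiv.Perm (Fin n))
    (hcl : ∀ s ∈ L, ∀ x, next s x ∈ L) : Automaton where
  m := L.length
  n := n
  pos := List.length_pos_iff.2 hL
  two_le := hn
  trans k x := ⟨L.idxOf (next (L.get k) x), List.idxOf_lt_length_iff.2 (hcl _ (L.get_mem k) x)⟩
  out k := outp (L.get k)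

/-! ### self-similar groups -/

/-- A self-similar action of the group `G` over the alphabet `X`: outputs and sections. -/
structure SS (G X : Type) [Group G] where
  /-- outputs -/
  out : G → X → X
  /-- sections -/
  sec : G → X → G
  out_one : ∀ x, out 1 x = x
  sec_one : ∀ x, sec 1 x = 1
  out_mul : ∀ g h x, out (g * h) x = out g (out h x)
  sec_mul : ∀ g h x, sec (g * h) x = sec g (out h x) * sec h x

namespace SS
variable {G X : Type} [Group G] (S : SS G X)

/-- The permutation of the alphabet given by `g`. -/
def perm (g : G) : Equiv.Perm X where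
  toFun := S.out g
  invFun := S.out g⁻¹
  left_inv x := by rw [← S.out_mul, inv_mul_cancel, S.out_one]
  right_inv x := by rw [← S.out_mul, mul_inv_cancel, S.out_one]

/-- The action on words. -/
def act : G → List X → List X
  | _, [] => []
  | g, x :: w => S.out g x :: act (S.sec g x) w

theorem act_one (w : List X) : S.act 1 w = w := by
  induction w with
  | nil => rfl
  | cons x w ih => simp [act, S.out_one, S.sec_one, ih]

theorem act_mul (g h : G) (w : List X) : S.act (g * h) w = S.act g (S.act h w) := by
  induction w generalizing g h with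
  | nil => rfl
  | cons x w ih => simp [act, S.out_mul, S.sec_mul, ih]

/-- The action on words as a homomorphism. -/
def hom : G →* Equiv.Perm (List X) where
  toFun g :=
    { toFun := S.act g
      invFun := S.act g⁻¹
      left_inv := fun w => by rw [← S.act_mul, inv_mul_cancel, S.act_one]
      right_inv := fun w => by rw [← S.act_mul, mul_inv_cancel, S.act_one] }
  map_one' := by ext w; simp [act_one]
  map_mul' g h := by ext w; simp [act_mul]

end SS

/-! ### digits -/

/-- The pairs of binary digits. -/
abbrev D : Type := Fin 2 → Fin 2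

/-- Pairs of digits as integer vectors. -/
def cst (x : D) : Fin 2 → ℤ := fun i => ((x i : ℕ) : ℤ)

/-- The last binary digits of an integer vector. -/
def dig (v : Fin 2 → ℤ) : D := fun i => ⟨(v i % 2).toNat, by omega⟩

/-- The other digits. -/
def half (v : Fin 2 → ℤ) : Fin 2 → ℤ := fun i => v i / 2

theorem dig_add (v : Fin 2 → ℤ) : cst (dig v) + (2 : ℤ) • half v = v := by
  funext i
  simp only [cst, dig, half, Pi.add_apply, Pi.smul_apply, smul_eq_mul]
  omega

theorem dig_of (x : D) (v : Fin 2 → ℤ) : dig (cst x + (2 : ℤ) • v) = x := by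
  funext i
  apply Fin.ext
  simp only [cst, dig, Pi.add_apply, Pi.smul_apply, smul_eq_mul]
  have := (x i).2
  omega

theorem half_of (x : D) (v : Fin 2 → ℤ) : half (cst x + (2 : ℤ) • v) = v := by
  funext i
  simp only [cst, half, Pi.add_apply, Pi.smul_apply, smul_eq_mul]
  have := (x i).2
  omega

/-! ### the group `ℤ² ⋊ F` -/

section
variable {F : Type} [Group F]

/-- The semidirect product of `ℤ²` and `F`, where `F` acts through `ι`. -/
@[ext] structure Aff (ι : F →* Matrix.SpecialLinearGroup (Fin 2) ℤ) where
  /-- the linear part -/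
  lin : F
  /-- the translation part -/
  tr : Fin 2 → ℤ

variable (ι : F →* Matrix.SpecialLinearGroup (Fin 2) ℤ)

/-- The action of `F` on integer vectors. -/
def mv (f : F) (v : Fin 2 → ℤ) : Fin 2 → ℤ :=
  Matrix.mulVec (ι f : Matrix (Fin 2) (Fin 2) ℤ) v

theorem mv_one (v : Fin 2 → ℤ) : mv ι 1 v = v := by simp [mv]

theorem mv_mul (f g : F) (v : Fin 2 → ℤ) : mv ι (f * g) v = mv ι f (mv ι g v) := by
  unfold mv
  rw [map_mul, Matrix.SpecialLinearGroup.coe_mul, Matrix.mulVec_mulVec]

theorem mv_add (f : F) (v w : Fin 2 → ℤ) : mv ι f (v + w) = mv ι f v + mv ι f w := by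
  simp [mv, Matrix.mulVec_add]

theorem mv_smul (f : F) (c : ℤ) (v : Fin 2 → ℤ) : mv ι f (c • v) = c • mv ι f v := by
  unfold mv
  rw [Matrix.mulVec_smul]

theorem mv_neg (f : F) (v : Fin 2 → ℤ) : mv ι f (-v) = -mv ι f v := by
  simp [mv, Matrix.mulVec_neg]

theorem mv_zero (f : F) : mv ι f 0 = 0 := by simp [mv]

variable {ι}

instance : Mul (Aff ι) := ⟨fun g h => ⟨g.lin * h.lin, g.tr + mv ι g.lin h.tr⟩⟩
instance : One (Aff ι) := ⟨⟨1, 0⟩⟩
instance : Inv (Aff ι) := ⟨fun g => ⟨g.lin⁻¹, -mv ι g.lin⁻¹ g.tr⟩⟩

@[simp] theorem Aff.mul_lin (g h : Aff ι) : (g * h).lin = g.lin * h.lin := rfl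
@[simp] theorem Aff.mul_tr (g h : Aff ι) : (g * h).tr = g.tr + mv ι g.lin h.tr := rfl
@[simp] theorem Aff.one_lin : (1 : Aff ι).lin = 1 := rfl
@[simp] theorem Aff.one_tr : (1 : Aff ι).tr = 0 := rfl
@[simp] theorem Aff.inv_lin (g : Aff ι) : (g⁻¹).lin = g.lin⁻¹ := rfl
@[simp] theorem Aff.inv_tr (g : Aff ι) : (g⁻¹).tr = -mv ι g.lin⁻¹ g.tr := rfl

instance : Group (Aff ι) :=
  Group.ofLeftAxioms
    (fun a b c => Aff.ext (by simp [mul_assoc]) (by simp [mv_add, mv_mul, add_assoc]))
    (fun a => Aff.ext (by simp) (by simp [mv_one]))
    (fun a => Aff.ext (by simp) (by simp))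

/-- The linear part as a homomorphism. -/
def linHom : Aff ι →* F where
  toFun := Aff.lin
  map_one' := rfl
  map_mul' _ _ := rfl

/-- The value of the affine map `g` at `v`. -/
def Aff.app (g : Aff ι) (v : Fin 2 → ℤ) : Fin 2 → ℤ := g.tr + mv ι g.lin v

/-- The affine action on pairs of 2-adic integers. -/
def ssAff : SS (Aff ι) D where
  out g x := dig (g.app (cst x))
  sec g x := ⟨g.lin, half (g.app (cst x))⟩
  out_one x := by
    have := dig_of x 0
    simpa [Aff.app, mv_one] using this
  sec_one x := by
    have := half_of x 0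
    apply Aff.ext
    · rfl
    · simpa [Aff.app, mv_one] using this
  out_mul g h x := by
    have h1 : (g * h).app (cst x) = g.app (h.app (cst x)) := by
      simp [Aff.app, mv_add, mv_mul, add_assoc]
    have h2 : g.app (h.app (cst x)) = g.app (cst (dig (h.app (cst x)))) +
        (2 : ℤ) • mv ι g.lin (half (h.app (cst x))) := by
      conv_lhs => rw [← dig_add (h.app (cst x))]
      unfold Aff.app
      rw [mv_add, mv_smul, add_assoc]
    show dig ((g * h).app (cst x)) = dig (g.app (cst (dig (h.app (cst x)))))
    rw [h1, h2]
    conv_lhs => rw [← dig_add (g.app (cst (dig (h.app (cst x)))))]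
    rw [add_assoc, ← smul_add, dig_of]
  sec_mul g h x := by
    have h1 : (g * h).app (cst x) = g.app (h.app (cst x)) := by
      simp [Aff.app, mv_add, mv_mul, add_assoc]
    have h2 : g.app (h.app (cst x)) = g.app (cst (dig (h.app (cst x)))) +
        (2 : ℤ) • mv ι g.lin (half (h.app (cst x))) := by
      conv_lhs => rw [← dig_add (h.app (cst x))]
      unfold Aff.app
      rw [mv_add, mv_smul, add_assoc]
    apply Aff.ext
    · rfl
    · show half ((g * h).app (cst x)) = half (g.app (cst (dig (h.app (cst x))))) +
        mv ι g.lin (half (h.app (cst x)))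
      rw [h1, h2]
      conv_lhs => rw [← dig_add (g.app (cst (dig (h.app (cst x)))))]
      rw [add_assoc, ← smul_add, half_of]

end

/-- The letters `0, ..., 15` as pairs of pairs of digits. -/
noncomputable def e16 : Fin 16 ≃ D × D := (Fintype.equivFinOfCardEq (by simp)).symm

/-- The product of a self-similar group over `D` with itself. -/
noncomputable def SS.sq {G : Type} [Group G] (S : SS G D) : SS (G × G) (Fin 16) where
  out g x := e16.symm (S.out g.1 (e16 x).1, S.out g.2 (e16 x).2)
  sec g x := (S.sec g.1 (e16 x).1, S.sec g.2 (e16 x).2)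
  out_one x := by simp [S.out_one]
  sec_one x := by simp [S.sec_one]
  out_mul g h x := by simp [S.out_mul]
  sec_mul g h x := by simp [S.sec_mul]

/-! ### the automata of lists of relators -/

/-- An injective homomorphism from a free group to `SL₂(ℤ)` and a finite set of translations which
is closed under the sections of the generators and their inverses. -/
structure Setup (N : ℕ) where
  /-- the embedding -/
  ι : FreeGroup (Fin N) →* Matrix.SpecialLinearGroup (Fin 2) ℤ
  inj : Function.Injective ι
  /-- the number of translations -/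
  c : ℕ
  /-- the translations -/
  τ : Fin c → (Fin 2 → ℤ)
  /-- the translations of the sections -/
  nx : (Fin N × Bool) × Fin c → D → Fin c
  nx_spec : ∀ a k x, τ (nx (a, k) x) = half (τ k + mv ι (FreeGroup.mk [a]) (cst x))
  zero : ∃ k, τ k = 0
  e1 : ∃ k, τ k = ![1, 0]
  e2 : ∃ k, τ k = ![0, 1]

namespace Setup
variable {N : ℕ} (U : Setup N)

/-- The elementary states. -/
abbrev T : Type := (Fin N × Bool) × Fin U.c

/-- The affine map of an elementary state. -/
def val (t : U.T) : Aff U.ι := ⟨FreeGroup.mk [t.1], U.τ t.2⟩

/-- The affine map of a word in the elementary states. -/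
def valL (l : List U.T) : Aff U.ι := (l.map U.val).prod

/-- The pair of affine maps of a pair of words in the elementary states. -/
def valP (s : List U.T × List U.T) : Aff U.ι × Aff U.ι := (U.valL s.1, U.valL s.2)

/-- One step of the elementary automaton. -/
def step (p : U.T × D) : D × U.T :=
  (dig (U.τ p.1.2 + mv U.ι (FreeGroup.mk [p.1.1]) (cst p.2)), (p.1.1, U.nx p.1 p.2))

/-- One step of a word in the elementary states; the first letter of the word acts last. -/
def run (l : List U.T) (x : D) : D × List U.T :=
  l.foldr (fun t p => ((U.step (t, p.1)).1, (U.step (t, p.1)).2 :: p.2)) (x, [])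

/-- The transition map on pairs of words. -/
noncomputable def next (s : List U.T × List U.T) (x : Fin 16) : List U.T × List U.T :=
  ((U.run s.1 (e16 x).1).2, (U.run s.2 (e16 x).2).2)

/-- The output map on pairs of words. -/
noncomputable def outp (s : List U.T × List U.T) : Equiv.Perm (Fin 16) :=
  (ssAff (ι := U.ι)).sq.perm (U.valP s)

/-- The states of the automaton over the word `r`. -/
def St (r : List (Fin N × Bool)) : List (List U.T) :=
  r.foldr (fun a acc => acc.flatMap fun l => (List.finRange U.c).map fun k => (a, k) :: l) [[]]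

/-- The states over the generators. -/
def base : List (List U.T × List U.T) :=
  (List.finRange N).flatMap fun i => [true, false].flatMap fun b =>
    (List.finRange U.c).flatMap fun k => (List.finRange U.c).map fun k' =>
      ([((i, b), k)], [((i, b), k')])

/-- All states of the automaton of a list of relators. -/
def All (rs : List (List (Fin N × Bool))) : List (List U.T × List U.T) :=
  U.base ++ rs.flatMap fun r => (U.St r).map fun l => (l, [])

/-- The normal subgroup generated by the relators. -/
def nc (rs : List (List (Fin N × Bool))) : Subgroup (FreeGroup (Fin N)) :=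
  Subgroup.normalClosure {x | ∃ r ∈ rs, x = FreeGroup.mk r}

/-- The fibre product. -/
def P (rs : List (List (Fin N × Bool))) : Subgroup (Aff U.ι × Aff U.ι) where
  carrier := {g | g.1.lin * g.2.lin⁻¹ ∈ nc rs}
  one_mem' := by simp
  mul_mem' := by
    intro g h hg hh
    have hn : (nc rs).Normal := Subgroup.normalClosure_normal
    have h1 := mul_mem (hn.conj_mem _ hh g.1.lin) hg
    simp only [Set.mem_ofPred_eq, Prod.fst_mul, Prod.snd_mul, Aff.mul_lin, mul_inv_rev] at hg hh h1 ⊢
    have h2 : g.1.lin * h.1.lin * (h.2.lin⁻¹ * g.2.lin⁻¹) =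
        g.1.lin * (h.1.lin * h.2.lin⁻¹) * g.1.lin⁻¹ * (g.1.lin * g.2.lin⁻¹) := by group
    rw [h2]; exact h1
  inv_mem' := by
    intro g hg
    have hn : (nc rs).Normal := Subgroup.normalClosure_normal
    have h1 := hn.conj_mem _ (inv_mem hg) g.1.lin⁻¹
    simp only [Set.mem_ofPred_eq, Prod.fst_inv, Prod.snd_inv, Aff.inv_lin, inv_inv] at hg h1 ⊢
    have h2 : g.1.lin⁻¹ * g.2.lin = g.1.lin⁻¹ * (g.1.lin * g.2.lin⁻¹)⁻¹ * g.1.lin := by group
    rw [h2]; exact h1

end Setup

end Pool.Agent.H79Iso
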