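import Pool.Agent.H79Iso.Defs
import Pool.Agent.TH716.C3.Main
import Pool.Agent.TH111.J524

/-!
# Undecidability of the triviality of finitely presented groups, with a fixed number of generators
and relators
-/

set_option autoImplicit false

namespace Pool.Agent.H79Iso

namespace I1

open Pool.Agent.TH716.C3

/-- The letters `(x, b)` are replaced by `(x mod N, b)`. -/
def cv (N : ℕ) [NeZero N] (l : List (ℕ × Bool)) : List (Fin N × Bool) :=
  l.map fun x => (Fin.ofNat N x.1, x.2)

theorem ev_cv {N : ℕ} [NeZero N] {G : Type} [Group G] (γ : ℕ → G)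
    (φ : FreeGroup (Fin N) →* G) (l : List (ℕ × Bool))
    (hl : ∀ x ∈ l, φ (FreeGroup.of (Fin.ofNat N x.1)) = γ x.1) :
    φ (FreeGroup.mk (cv N l)) = ev γ l := by
  induction l with
  | nil =>
    have h1 : (FreeGroup.mk (cv N []) : FreeGroup (Fin N)) = 1 := rfl
    rw [h1, map_one]
    simp [ev]
  | cons x l ih =>
    have h1 : (FreeGroup.mk (cv N (x :: l)) : FreeGroup (Fin N)) =
        FreeGroup.mk [(Fin.ofNat N x.1, x.2)] * FreeGroup.mk (cv N l) := by
      simp [cv]
    have h2 : ev γ (x :: l) = (if x.2 then γ x.1 else (γ x.1)⁻¹) * ev γ l := by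
      simp [ev]
    have h3 : φ (FreeGroup.mk [(Fin.ofNat N x.1, x.2)]) = if x.2 then γ x.1 else (γ x.1)⁻¹ := by
      have h4 := hl x List.mem_cons_self
      obtain ⟨i, b⟩ := x
      cases b
      · have h5 : (FreeGroup.mk [(Fin.ofNat N i, false)] : FreeGroup (Fin N)) =
            (FreeGroup.of (Fin.ofNat N i))⁻¹ := rfl
        rw [h5, map_inv, h4]
        simp
      · have h5 : (FreeGroup.mk [(Fin.ofNat N i, true)] : FreeGroup (Fin N)) =
            FreeGroup.of (Fin.ofNat N i) := rfl
        rw [h5, h4]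
        simp
    rw [h1, map_mul, h3, h2, ih fun y hy => hl y (List.mem_cons_of_mem _ hy)]

theorem primrec_cv (N : ℕ) [NeZero N] : Primrec (cv N) := by
  unfold cv
  refine Primrec.list_map Primrec.id ?_
  refine Primrec.pair ?_ (Primrec.snd.comp Primrec.snd)
  have h1 : Primrec (Fin.ofNat N) := by
    rw [← Primrec.fin_val_iff]
    exact Primrec.nat_mod.comp Primrec.id (Primrec.const N)
  exact h1.comp (Primrec.fst.comp Primrec.snd)

end I1

open Pool.Agent.TH716.C3 in
theorem triv_undecidable : ∃ (N : ℕ) (_ : 2 ≤ N) (rsf : ℕ → List (List (Fin N × Bool))),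
    Computable rsf ∧ ¬ ComputablePred (fun n => Setup.nc (rsf n) = ⊤) := by
  classical
  obtain ⟨m, R, W, hW, hund⟩ := Pool.Agent.Helper270.WP.word_problem
  obtain ⟨syes, sno⟩ := Pool.Agent.TH111.J524.result
  set Rl : List (List (Fin m × Bool)) := R.toList.map FreeGroup.toWord with hRl
  have hR : {x | ∃ r ∈ Rl, x = FreeGroup.mk r} = (R : Set (FreeGroup (Fin m))) := by
    ext x
    constructor
    · rintro ⟨r, hr, rfl⟩
      rw [hRl, List.mem_map] at hr
      obtain ⟨y, hy, rfl⟩ := hr
      rw [FreeGroup.mk_toWord]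
      exact Finset.mem_toList.1 hy
    · intro hx
      exact ⟨x.toWord, List.mem_map.2 ⟨x, Finset.mem_toList.2 hx, rfl⟩, FreeGroup.mk_toWord.symm⟩
  let N : ℕ := 2 * m + 6
  have : NeZero N := ⟨by omega⟩
  let rsf : ℕ → List (List (Fin N × Bool)) := fun n =>
    ((List.range N).map fun h => I1.cv N (rl (gN m) h)) ++ (rsn Rl (W n)).map (I1.cv N)
  have hcomp : Computable rsf := by
    have h1 : Primrec fun w : List (Fin m × Bool) =>
        ((List.range N).map fun h => I1.cv N (rl (gN m) h)) ++ (rsn Rl w).map (I1.cv N) :=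
      Primrec.list_append.comp (Primrec.const _)
        (Primrec.list_map (primrec_rsn Rl) ((I1.primrec_cv N).comp Primrec.snd))
    exact h1.to_comp.comp hW
  refine ⟨N, by omega, rsf, hcomp, ?_⟩
  have hrlmem : ∀ n, ∀ h < N, FreeGroup.mk (I1.cv N (rl (gN m) h)) ∈ Setup.nc (rsf n) := by
    intro n h hh
    apply Subgroup.subset_normalClosure
    exact ⟨_, List.mem_append_left _ (List.mem_map.2 ⟨h, List.mem_range.2 hh, rfl⟩), rfl⟩
  have hrsmem : ∀ n, ∀ r ∈ rsn Rl (W n), FreeGroup.mk (I1.cv N r) ∈ Setup.nc (rsf n) := by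
    intro n r hr
    apply Subgroup.subset_normalClosure
    exact ⟨_, List.mem_append_right _ (List.mem_map.2 ⟨r, hr, rfl⟩), rfl⟩
  have key : ∀ n, (Setup.nc (rsf n) = ⊤) ↔
      FreeGroup.mk (W n) ∈ Subgroup.normalClosure (R : Set (FreeGroup (Fin m))) := by
    intro n
    constructor
    · intro htop
      by_contra hn
      obtain ⟨G, _, γ, h1, h2, h3⟩ := sno m Rl (W n) (by rw [hR]; exact hn)
      let φ : FreeGroup (Fin N) →* G := FreeGroup.lift fun i => γ i.1
      have hφ : ∀ x < N, φ (FreeGroup.of (Fin.ofNat N x)) = γ x := by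
        intro x hx
        change FreeGroup.lift (fun i : Fin N => γ i.1) (FreeGroup.of (Fin.ofNat N x)) = γ x
        rw [FreeGroup.lift_apply_of]
        have : (Fin.ofNat N x).1 = x := Nat.mod_eq_of_lt hx
        rw [this]
      have hker : Setup.nc (rsf n) ≤ φ.ker := by
        apply Subgroup.normalClosure_le_normal
        rintro x ⟨r, hr, rfl⟩
        change φ (FreeGroup.mk r) = 1
        rcases List.mem_append.1 hr with hr | hr
        · obtain ⟨h, hh, rfl⟩ := List.mem_map.1 hr
          have hh' : h < N := List.mem_range.1 hh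
          rw [I1.ev_cv γ φ _ ?_]
          · exact h1 h hh'
          · intro x hx
            apply hφ
            have hg := gN_lt m h hh'
            simp only [rl, List.mem_cons, List.not_mem_nil, or_false] at hx
            rcases hx with rfl | rfl | rfl | rfl | rfl <;> assumption
        · obtain ⟨r', hr', rfl⟩ := List.mem_map.1 hr
          rw [I1.ev_cv γ φ _ fun x hx => hφ _ ((rsn_lt Rl (W n) r' hr').2 x hx)]
          exact h2 r' hr'
      apply h3
      rw [← hφ 0 (by omega)]
      have : FreeGroup.of (Fin.ofNat N 0) ∈ φ.ker := hker (by rw [htop]; trivial)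
      exact this
    · intro hw
      have hnn : (Setup.nc (rsf n)).Normal := Subgroup.normalClosure_normal
      let φ : FreeGroup (Fin N) →* FreeGroup (Fin N) ⧸ Setup.nc (rsf n) :=
        QuotientGroup.mk' (Setup.nc (rsf n))
      let γ : ℕ → FreeGroup (Fin N) ⧸ Setup.nc (rsf n) := fun h =>
        φ (FreeGroup.of (Fin.ofNat N h))
      have h1 : ∀ h < 2 * m + 6, ev γ (rl (gN m) h) = 1 := by
        intro h hh
        rw [← I1.ev_cv γ φ _ fun x _ => rfl]
        exact (QuotientGroup.eq_one_iff _).2 (hrlmem n h hh)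
      have h2 : ∀ r ∈ rsn Rl (W n), ev γ r = 1 := by
        intro r hr
        rw [← I1.ev_cv γ φ _ fun x _ => rfl]
        exact (QuotientGroup.eq_one_iff _).2 (hrsmem n r hr)
      have h3 : ∀ h < 2 * m + 6, γ h = 1 :=
        syes m Rl (W n) (by rw [hR]; exact hw) _ γ h1
          (fun r hr h _ => by rw [h2 r hr]; exact Commute.one_left _)
      rw [eq_top_iff, ← FreeGroup.closure_range_of, Subgroup.closure_le]
      rintro _ ⟨i, rfl⟩
      have h4 := h3 i.1 i.2
      have h5 : Fin.ofNat N i.1 = i := Fin.ext (Nat.mod_eq_of_lt i.2)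
      change φ (FreeGroup.of (Fin.ofNat N i.1)) = 1 at h4
      rw [h5] at h4
      exact (QuotientGroup.eq_one_iff _).1 h4
  intro hc
  apply hund
  have : (fun n => Setup.nc (rsf n) = ⊤) = fun n => FreeGroup.mk (W n) ∈
      Subgroup.normalClosure (R : Set (FreeGroup (Fin m))) := funext fun n => propext (key n)
  rw [← this]
  exact hc

end Pool.Agent.H79Iso
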