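import Pool.Agent.H79Iso.I6
import Pool.Agent.H79Iso.Defs

set_option autoImplicit false

namespace Pool.Agent.H79Iso.Setup
variable {N : ℕ} (U : Setup N)

theorem i10_run : Primrec₂ U.run := by
  have hstep : Primrec U.step := Primrec.dom_finite _
  have h : Primrec₂ (fun (_ : List U.T × D) (bs : U.T × (D × List U.T)) =>
      (((U.step (bs.1, bs.2.1)).1, (U.step (bs.1, bs.2.1)).2 :: bs.2.2) : D × List U.T)) := by
    have h1 : Primrec (fun q : (List U.T × D) × (U.T × (D × List U.T)) =>
        U.step (q.2.1, q.2.2.1)) :=
      hstep.comp ((Primrec.fst.comp Primrec.snd).pair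
        (Primrec.fst.comp (Primrec.snd.comp Primrec.snd)))
    exact (Primrec.fst.comp h1).pair
      (Primrec.list_cons.comp (Primrec.snd.comp h1)
        (Primrec.snd.comp (Primrec.snd.comp Primrec.snd)))
  have h2 : Primrec (fun p : List U.T × D => (p.1).foldr (fun b s =>
      (((U.step (b, s.1)).1, (U.step (b, s.1)).2 :: s.2) : D × List U.T)) (p.2, [])) :=
    Primrec.list_foldr Primrec.fst (Primrec.snd.pair (Primrec.const [])) h
  exact h2

theorem i10_St : Primrec U.St := by
  have h : Primrec₂ (fun (_ : List (Fin N × Bool)) (bs : (Fin N × Bool) × List (List U.T)) =>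
      bs.2.flatMap fun l => (List.finRange U.c).map fun k => ((bs.1, k) : U.T) :: l) := by
    refine Primrec.list_flatMap (Primrec.snd.comp Primrec.snd) ?_
    refine Primrec.list_map (Primrec.const _) ?_
    refine Primrec.list_cons.comp ?_ ?_
    · exact (Primrec.fst.comp (Primrec.snd.comp (Primrec.fst.comp Primrec.fst))).pair Primrec.snd
    · exact Primrec.snd.comp Primrec.fst
  have h2 : Primrec (fun r : List (Fin N × Bool) => r.foldr (fun a acc =>
      acc.flatMap fun l => (List.finRange U.c).map fun k => ((a, k) : U.T) :: l) [[]]) :=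
    Primrec.list_foldr Primrec.id (Primrec.const [[]]) h
  exact h2

theorem i10_All : Primrec U.All := by
  have h : Primrec (fun rs : List (List (Fin N × Bool)) => rs.flatMap fun r =>
      (U.St r).map fun l => ((l, []) : List U.T × List U.T)) := by
    refine Primrec.list_flatMap Primrec.id ?_
    refine Primrec.list_map (U.i10_St.comp Primrec.snd) ?_
    exact Primrec.snd.pair (Primrec.const [])
  exact Primrec.list_append.comp (Primrec.const U.base) h

theorem i10_next : Primrec₂ U.next := by
  have he : Primrec (fun x : Fin 16 => e16 x) := Primrec.dom_finite _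
  have h1 : Primrec (fun q : (List U.T × List U.T) × Fin 16 => (U.run q.1.1 (e16 q.2).1).2) :=
    Primrec.snd.comp (U.i10_run.comp (Primrec.fst.comp Primrec.fst)
      (Primrec.fst.comp (he.comp Primrec.snd)))
  have h2 : Primrec (fun q : (List U.T × List U.T) × Fin 16 => (U.run q.1.2 (e16 q.2).2).2) :=
    Primrec.snd.comp (U.i10_run.comp (Primrec.snd.comp Primrec.fst)
      (Primrec.snd.comp (he.comp Primrec.snd)))
  exact h1.pair h2

theorem i10_outp : Primrec₂ (fun (s : List U.T × List U.T) (x : Fin 16) =>
    ((U.outp s x : Fin 16) : ℕ)) := by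
  have he : Primrec (fun x : Fin 16 => e16 x) := Primrec.dom_finite _
  have hv : Primrec (fun y : D × D => ((e16.symm y : Fin 16) : ℕ)) := Primrec.dom_finite _
  have h1 : Primrec (fun q : (List U.T × List U.T) × Fin 16 => (U.run q.1.1 (e16 q.2).1).1) :=
    Primrec.fst.comp (U.i10_run.comp (Primrec.fst.comp Primrec.fst)
      (Primrec.fst.comp (he.comp Primrec.snd)))
  have h2 : Primrec (fun q : (List U.T × List U.T) × Fin 16 => (U.run q.1.2 (e16 q.2).2).1) :=
    Primrec.fst.comp (U.i10_run.comp (Primrec.snd.comp Primrec.fst)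
      (Primrec.snd.comp (he.comp Primrec.snd)))
  have h3 := hv.comp (h1.pair h2)
  refine h3.of_eq ?_
  intro q
  exact congrArg (fun y : Fin 16 => (y : ℕ)) (U.outp_eq q.1 q.2).symm

theorem comp_table : Computable (fun rs : List (List (Fin N × Bool)) =>
    (U.All rs).map fun s => (List.finRange 16).map fun x =>
      ((U.All rs).idxOf (U.next s x), ((U.outp s x : Fin 16) : ℕ))) := by
  refine Primrec.to_comp ?_
  refine Primrec.list_map U.i10_All ?_
  refine Primrec.list_map (Primrec.const _) ?_
  refine Primrec.pair ?_ ?_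
  · have hb : (instBEqProd : BEq (List U.T × List U.T)) = instBEqOfDecidableEq :=
      lawful_beq_subsingleton _ _
    rw [hb]
    exact Primrec.list_idxOf.comp
      (U.i10_next.comp (Primrec.snd.comp Primrec.fst) Primrec.snd)
      (U.i10_All.comp (Primrec.fst.comp Primrec.fst))
  · exact U.i10_outp.comp (Primrec.snd.comp Primrec.fst) Primrec.snd

end Pool.Agent.H79Iso.Setup
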