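import Pool.Agent.H79Iso.Defs
import Pool.Agent.Helper460_OutF.Sanov
import Pool.Agent.Y510.SL.Embed

/-! Finitely generated free groups embed in `SL₂(ℤ)`. -/

set_option autoImplicit false

namespace Pool.Agent.H79Iso

theorem exists_embedding (N : ℕ) :
    ∃ ι : FreeGroup (Fin N) →* Matrix.SpecialLinearGroup (Fin 2) ℤ, Function.Injective ι := by
  let e : FreeGroup (Fin N) →* FreeGroup ℤ := FreeGroup.map (fun i : Fin N => ((i : ℕ) : ℤ))
  have he : Function.Injective e := FreeGroup.map_injective
    (fun x y h => Fin.ext (by exact_mod_cast h))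
  refine ⟨Pool.Agent.Helper460_OutF.sanov.comp (Pool.Agent.Y510.SL.jz.comp e), ?_⟩
  rw [MonoidHom.coe_comp, MonoidHom.coe_comp]
  exact Pool.Agent.Helper460_OutF.sanov_injective.comp
    (Pool.Agent.Y510.SL.jz_injective.comp he)

end Pool.Agent.H79Iso
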