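import Pool.Agent.H79Iso.Defs

set_option autoImplicit false

namespace Pool.Agent.H79Iso

theorem box_cst (x : D) (j : Fin 2) : cst x j = 0 ∨ cst x j = 1 := by
  have h := (x j).2
  unfold cst
  omega

theorem box_step (S : ℤ) (A : Matrix (Fin 2) (Fin 2) ℤ)
    (hA : ∀ i, |A i 0| + |A i 1| ≤ S) (v : Fin 2 → ℤ) (hv : ∀ i, v i ∈ Finset.Icc (-(S + 1)) (S + 1))
    (x : D) (i : Fin 2) :
    half (v + Matrix.mulVec A (cst x)) i ∈ Finset.Icc (-(S + 1)) (S + 1) := by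
  have h1 : half (v + Matrix.mulVec A (cst x)) i =
      (v i + (A i 0 * cst x 0 + A i 1 * cst x 1)) / 2 := by
    simp only [half, Pi.add_apply, Matrix.mulVec, dotProduct, Fin.sum_univ_two]
  have h2 := hA i
  have h3 := hv i
  rw [Finset.mem_Icc] at h3 ⊢
  rw [h1]
  have a0 := le_abs_self (A i 0)
  have a1 := neg_abs_le (A i 0)
  have a2 := le_abs_self (A i 1)
  have a3 := neg_abs_le (A i 1)
  have a4 := abs_nonneg (A i 0)
  have a5 := abs_nonneg (A i 1)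
  rcases box_cst x 0 with e0 | e0 <;> rcases box_cst x 1 with e1 | e1 <;> rw [e0, e1] <;> omega

theorem exists_box {α : Type} [Finite α] (A : α → Matrix (Fin 2) (Fin 2) ℤ) :
    ∃ (c : ℕ) (τ : Fin c → (Fin 2 → ℤ)) (nx : α × Fin c → D → Fin c),
      (∀ a k x, τ (nx (a, k) x) = half (τ k + Matrix.mulVec (A a) (cst x))) ∧
      (∃ k, τ k = 0) ∧ (∃ k, τ k = ![1, 0]) ∧ ∃ k, τ k = ![0, 1] := by
  obtain ⟨M, hM⟩ := Finite.exists_le
    (fun a : α => |A a 0 0| + |A a 0 1| + (|A a 1 0| + |A a 1 1|))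
  obtain ⟨S, hS⟩ : ∃ S : ℤ, S = |M| := ⟨_, rfl⟩
  have hS0 : 0 ≤ S := by rw [hS]; exact abs_nonneg M
  have hA : ∀ a, ∀ i, |A a i 0| + |A a i 1| ≤ S := by
    intro a i
    have h1 : |A a 0 0| + |A a 0 1| + (|A a 1 0| + |A a 1 1|) ≤ M := hM a
    have h2 := le_abs_self M
    have b1 := abs_nonneg (A a 0 0)
    have b2 := abs_nonneg (A a 0 1)
    have b3 := abs_nonneg (A a 1 0)
    have b4 := abs_nonneg (A a 1 1)
    rw [hS]
    fin_cases i
    · change |A a 0 0| + |A a 0 1| ≤ |M|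
      linarith
    · change |A a 1 0| + |A a 1 1| ≤ |M|
      linarith
  obtain ⟨Q, hQ⟩ : ∃ Q : Finset (Fin 2 → ℤ),
      Q = Fintype.piFinset fun _ => Finset.Icc (-(S + 1)) (S + 1) := ⟨_, rfl⟩
  have hmem : ∀ v : Fin 2 → ℤ, (∀ i, v i ∈ Finset.Icc (-(S + 1)) (S + 1)) → v ∈ Q := by
    intro v hv
    rw [hQ, Fintype.mem_piFinset]
    exact hv
  have hmem' : ∀ v : Fin 2 → ℤ, v ∈ Q → ∀ i, v i ∈ Finset.Icc (-(S + 1)) (S + 1) := by
    intro v hv
    rwa [hQ, Fintype.mem_piFinset] at hv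
  have hex : ∀ v : Fin 2 → ℤ, v ∈ Q → ∃ k : Fin Q.card, (Q.equivFin.symm k).1 = v := by
    intro v hv
    exact ⟨Q.equivFin ⟨v, hv⟩, by rw [Equiv.symm_apply_apply]⟩
  have hstep : ∀ a (k : Fin Q.card) (x : D),
      half ((Q.equivFin.symm k).1 + Matrix.mulVec (A a) (cst x)) ∈ Q := fun a k x =>
    hmem _ fun i => box_step S (A a) (hA a) _ (hmem' _ (Q.equivFin.symm k).2) x i
  refine ⟨Q.card, fun k => (Q.equivFin.symm k).1,
    fun p x => Q.equivFin ⟨_, hstep p.1 p.2 x⟩, ?_, ?_, ?_, ?_⟩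
  · intro a k x
    simp only [Equiv.symm_apply_apply]
  · refine hex 0 (hmem _ fun i => ?_)
    rw [Finset.mem_Icc, Pi.zero_apply]
    omega
  · refine hex _ (hmem _ fun i => ?_)
    rw [Finset.mem_Icc]
    fin_cases i
    · change -(S + 1) ≤ 1 ∧ (1 : ℤ) ≤ S + 1
      omega
    · change -(S + 1) ≤ 0 ∧ (0 : ℤ) ≤ S + 1
      omega
  · refine hex _ (hmem _ fun i => ?_)
    rw [Finset.mem_Icc]
    fin_cases i
    · change -(S + 1) ≤ 0 ∧ (0 : ℤ) ≤ S + 1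
      omega
    · change -(S + 1) ≤ 1 ∧ (1 : ℤ) ≤ S + 1
      omega

end Pool.Agent.H79Iso
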