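import Pool.Agent.H79Iso.Defs

set_option autoImplicit false

namespace Pool.Agent.H79Iso

namespace SS
variable {G X : Type} [Group G] (S : SS G X)

theorem triv_out {g : G} (h : ∀ w, S.act g w = w) (x : X) : S.out g x = x := by
  have := h [x]
  simp only [act] at this
  exact (List.cons.inj this).1

theorem triv_sec {g : G} (h : ∀ w, S.act g w = w) (x : X) (w : List X) :
    S.act (S.sec g x) w = w := by
  have := h (x :: w)
  simp only [act] at this
  exact (List.cons.inj this).2

end SS

section
variable {F : Type} [Group F] {ι : F →* Matrix.SpecialLinearGroup (Fin 2) ℤ}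

theorem cst_zero : cst 0 = 0 := by
  funext i
  simp [cst]

theorem app_zero (g : Aff ι) : g.app 0 = g.tr := by
  simp [Aff.app, mv_zero]

theorem triv_tr_dvd (n : ℕ) : ∀ g : Aff ι, (∀ w, (ssAff (ι := ι)).act g w = w) →
    ∀ i, (2 : ℤ) ^ n ∣ g.tr i := by
  induction n with
  | zero => intro g _ i; simp
  | succ n ih =>
    intro g hg i
    have h1 : (ssAff (ι := ι)).out g 0 = 0 := SS.triv_out _ hg 0
    have h2 := ih _ (SS.triv_sec _ hg 0) i
    have h1' : dig (g.app (cst 0)) = 0 := h1
    have h2' : (2 : ℤ) ^ n ∣ half (g.app (cst 0)) i := h2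
    rw [cst_zero, app_zero] at h1' h2'
    have h3 := congrFun (dig_add g.tr) i
    rw [h1', cst_zero] at h3
    rw [← h3]
    simp only [Pi.add_apply, Pi.smul_apply, smul_eq_mul, Pi.zero_apply, zero_add]
    rw [pow_succ, mul_comm]
    exact mul_dvd_mul_left 2 h2'

theorem triv_tr (g : Aff ι) (hg : ∀ w, (ssAff (ι := ι)).act g w = w) : g.tr = 0 := by
  funext i
  have h := triv_tr_dvd (g.tr i).natAbs g hg i
  apply Int.eq_zero_of_abs_lt_dvd h
  rw [Int.abs_eq_natAbs]
  have : (g.tr i).natAbs < 2 ^ (g.tr i).natAbs := Nat.lt_two_pow_self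
  exact_mod_cast this

theorem triv_fix (g : Aff ι) (hg : ∀ w, (ssAff (ι := ι)).act g w = w) (x : D) :
    mv ι g.lin (cst x) = cst x := by
  have h1 : dig (g.app (cst x)) = x := SS.triv_out _ hg x
  have h2 : half (g.app (cst x)) = 0 := triv_tr _ (SS.triv_sec _ hg x)
  have h3 := dig_add (g.app (cst x))
  rw [h1, h2, smul_zero, add_zero] at h3
  have h4 : g.app (cst x) = mv ι g.lin (cst x) := by
    simp [Aff.app, triv_tr g hg]
  rw [← h4, ← h3]

theorem triv_eq_one (hι : Function.Injective ι) (g : Aff ι)
    (hg : ∀ w, (ssAff (ι := ι)).act g w = w) : g = 1 := by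
  apply Aff.ext
  · apply hι
    rw [Aff.one_lin, map_one]
    have h1 := triv_fix g hg ![1, 0]
    have h2 := triv_fix g hg ![0, 1]
    ext i j
    have e1 := congrFun h1 i
    have e2 := congrFun h2 i
    simp only [mv, Matrix.mulVec, dotProduct, Fin.sum_univ_two, cst] at e1 e2
    fin_cases i <;> fin_cases j <;> simp_all
  · exact triv_tr g hg

theorem sq_act_fst {G : Type} [Group G] (S : SS G D) (g : G × G) (w : List (Fin 16)) :
    (S.sq.act g w).map (fun x => (e16 x).1) = S.act g.1 (w.map (fun x => (e16 x).1)) := by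
  induction w generalizing g with
  | nil => rfl
  | cons x w ih =>
    simp only [SS.act, List.map_cons]
    rw [ih]
    simp [SS.sq]

theorem sq_act_snd {G : Type} [Group G] (S : SS G D) (g : G × G) (w : List (Fin 16)) :
    (S.sq.act g w).map (fun x => (e16 x).2) = S.act g.2 (w.map (fun x => (e16 x).2)) := by
  induction w generalizing g with
  | nil => rfl
  | cons x w ih =>
    simp only [SS.act, List.map_cons]
    rw [ih]
    simp [SS.sq]

end

theorem hom_injective {F : Type} [Group F] (ι : F →* Matrix.SpecialLinearGroup (Fin 2) ℤ)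
    (hι : Function.Injective ι) : Function.Injective (ssAff (ι := ι)).sq.hom := by
  rw [injective_iff_map_eq_one]
  intro g hg
  have h : ∀ w, (ssAff (ι := ι)).sq.act g w = w := by
    intro w
    have := congrArg (fun e : Equiv.Perm (List (Fin 16)) => e w) hg
    exact this
  have hl : ∀ (f : D → D × D) (p : D × D → D), (∀ d, p (f d) = d) → ∀ w : List D,
      (w.map (fun d => e16.symm (f d))).map (fun x => p (e16 x)) = w := by
    intro f p hp w
    rw [List.map_map]
    conv_rhs => rw [← List.map_id w]
    apply List.map_congr_left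
    intro d _
    simp [hp]
  apply Prod.ext
  · apply triv_eq_one hι
    intro w
    have h1 := hl (fun d => (d, 0)) Prod.fst (fun _ => rfl) w
    have h2 := sq_act_fst ssAff g (w.map (fun d => e16.symm (d, 0)))
    rw [h] at h2
    rw [h1] at h2
    exact h2.symm
  · apply triv_eq_one hι
    intro w
    have h1 := hl (fun d => (0, d)) Prod.snd (fun _ => rfl) w
    have h2 := sq_act_snd ssAff g (w.map (fun d => e16.symm (0, d)))
    rw [h] at h2
    rw [h1] at h2
    exact h2.symm

end Pool.Agent.H79Iso
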