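import Pool.Agent.H79Iso.Defs

/- Hint: by induction on `w`, `(mkAut ...).act k w = S.act (val (L.get k)) w` (use that
`L.get ⟨L.idxOf y, _⟩ = y` for `y ∈ L`). So `(mkAut ...).perm k = S.hom (val (L.get k))`, the group
is the image under `S.hom` of `closure (val '' {s | s ∈ L})` (`MonoidHom.map_closure`), and
`Subgroup.equivMapOfInjective` gives the isomorphism. -/

set_option autoImplicit false

namespace Pool.Agent.H79Iso

theorem mkAut_act_aux {σ : Type} [DecidableEq σ] {n : ℕ} (hn : 2 ≤ n) (L : List σ) (hL : L ≠ [])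
    (next : σ → Fin n → σ) (outp : σ → Equiv.Perm (Fin n)) (hcl : ∀ s ∈ L, ∀ x, next s x ∈ L)
    {G : Type} [Group G] (S : SS G (Fin n)) (val : σ → G)
    (h1 : ∀ s ∈ L, ∀ x, outp s x = S.out (val s) x)
    (h2 : ∀ s ∈ L, ∀ x, val (next s x) = S.sec (val s) x) (w : List (Fin n)) :
    ∀ k : Fin L.length, (mkAut n hn L hL next outp hcl).act k w = S.act (val (L.get k)) w := by
  induction w with
  | nil => intro k; rfl
  | cons x w ih =>
    intro k
    have hk : L.get k ∈ L := L.get_mem k
    have hi : L.idxOf (next (L.get k) x) < L.length :=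
      List.idxOf_lt_length_iff.2 (hcl _ hk x)
    have hg : L.get ⟨L.idxOf (next (L.get k) x), hi⟩ = next (L.get k) x := by
      simp
    have e := ih ⟨L.idxOf (next (L.get k) x), hi⟩
    rw [hg, h2 _ hk] at e
    show outp (L.get k) x :: (mkAut n hn L hL next outp hcl).act
      ⟨L.idxOf (next (L.get k) x), hi⟩ w = S.out (val (L.get k)) x :: S.act (S.sec (val (L.get k)) x) w
    exact congrArg₂ List.cons (h1 _ hk x) e

theorem mkAut_group {σ : Type} [DecidableEq σ] {n : ℕ} (hn : 2 ≤ n) (L : List σ) (hL : L ≠ [])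
    (next : σ → Fin n → σ) (outp : σ → Equiv.Perm (Fin n)) (hcl : ∀ s ∈ L, ∀ x, next s x ∈ L)
    {G : Type} [Group G] (S : SS G (Fin n)) (hS : Function.Injective S.hom) (val : σ → G)
    (h1 : ∀ s ∈ L, ∀ x, outp s x = S.out (val s) x)
    (h2 : ∀ s ∈ L, ∀ x, val (next s x) = S.sec (val s) x) :
    Nonempty ((mkAut n hn L hL next outp hcl).group ≃* Subgroup.closure (val '' {s | s ∈ L})) := by
  have hp : ∀ k : Fin L.length, (mkAut n hn L hL next outp hcl).perm k = S.hom (val (L.get k)) := by
    intro k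
    apply Equiv.ext
    intro w
    exact mkAut_act_aux hn L hL next outp hcl S val h1 h2 w k
  have hr : Set.range (mkAut n hn L hL next outp hcl).perm = S.hom '' (val '' {s | s ∈ L}) := by
    ext p
    constructor
    · rintro ⟨k, rfl⟩
      exact ⟨val (L.get k), ⟨L.get k, L.get_mem k, rfl⟩, (hp k).symm⟩
    · rintro ⟨g, ⟨s, hs, rfl⟩, rfl⟩
      obtain ⟨k, hk⟩ := List.get_of_mem hs
      refine ⟨k, ?_⟩
      have := hp k
      rw [hk] at this
      exact this
  have hg : (mkAut n hn L hL next outp hcl).group =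
      (Subgroup.closure (val '' {s | s ∈ L})).map S.hom := by
    have e1 : (mkAut n hn L hL next outp hcl).group =
      Subgroup.closure (S.hom '' (val '' {s | s ∈ L})) := by
      rw [← hr]; rfl
    rw [e1]
    exact (MonoidHom.map_closure S.hom (val '' {s | s ∈ L})).symm
  have key : ∀ H : Subgroup (Equiv.Perm (List (Fin n))),
      H = (Subgroup.closure (val '' {s | s ∈ L})).map S.hom →
      Nonempty (H ≃* Subgroup.closure (val '' {s | s ∈ L})) := by
    intro H hH
    subst hH
    exact ⟨((Subgroup.closure (val '' {s | s ∈ L})).equivMapOfInjective S.hom hS).symm⟩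
  exact key _ hg

theorem mkAut_table {σ : Type} [DecidableEq σ] {n : ℕ} (hn : 2 ≤ n) (L : List σ) (hL : L ≠ [])
    (next : σ → Fin n → σ) (outp : σ → Equiv.Perm (Fin n)) (hcl : ∀ s ∈ L, ∀ x, next s x ∈ L) :
    (mkAut n hn L hL next outp hcl).table =
      L.map fun s => (List.finRange n).map fun x => (L.idxOf (next s x), ((outp s x : Fin n) : ℕ)) := by
  have h1 : (mkAut n hn L hL next outp hcl).table =
      List.ofFn (fun k : Fin L.length => List.ofFn fun x : Fin n =>
        (L.idxOf (next (L.get k) x), ((outp (L.get k) x : Fin n) : ℕ))) := rfl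
  rw [h1]
  have h2 : L.map (fun s => (List.finRange n).map fun x =>
      (L.idxOf (next s x), ((outp s x : Fin n) : ℕ))) =
      (List.ofFn L.get).map (fun s => (List.finRange n).map fun x =>
      (L.idxOf (next s x), ((outp s x : Fin n) : ℕ))) := by
    rw [List.ofFn_get]
  rw [h2, List.map_ofFn]
  congr 1
  funext k
  simp only [Function.comp]
  rw [List.ofFn_eq_map]

end Pool.Agent.H79Iso
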