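import Pool.Agent.H79Iso.Defs

set_option autoImplicit false

namespace Pool.Agent.H79Iso.Setup
variable {N : ℕ} (U : Setup N)

theorem run_cons' (t : U.T) (l : List U.T) (x : D) : U.run (t :: l) x =
    ((U.step (t, (U.run l x).1)).1, (U.step (t, (U.run l x).1)).2 :: (U.run l x).2) := rfl

theorem run_fst' (l : List U.T) (x : D) : (U.run l x).1 = (ssAff (ι := U.ι)).out (U.valL l) x := by
  induction l with
  | nil =>
    have h : U.valL ([] : List U.T) = 1 := rfl
    rw [h, SS.out_one]
    rfl
  | cons t l ih =>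
    have h : U.valL (t :: l) = U.val t * U.valL l := by simp [valL]
    rw [run_cons', h, SS.out_mul, ← ih]
    rfl

theorem val_step' (t : U.T) (y : D) : U.val (U.step (t, y)).2 = (ssAff (ι := U.ι)).sec (U.val t) y := by
  apply Aff.ext
  · rfl
  · exact U.nx_spec t.1 t.2 y

theorem run_snd' (l : List U.T) (x : D) :
    U.valL (U.run l x).2 = (ssAff (ι := U.ι)).sec (U.valL l) x := by
  induction l with
  | nil =>
    have h : U.valL ([] : List U.T) = 1 := rfl
    rw [h, SS.sec_one]
    rfl
  | cons t l ih =>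
    have h : U.valL (t :: l) = U.val t * U.valL l := by simp [valL]
    rw [run_cons', h, SS.sec_mul, ← ih, ← run_fst', ← val_step']
    simp [valL]

theorem run_map' (l : List U.T) (x : D) : ((U.run l x).2).map Prod.fst = l.map Prod.fst := by
  induction l with
  | nil => rfl
  | cons t l ih =>
    rw [run_cons']
    simp only [List.map_cons, ih]
    rfl

theorem mem_St (r : List (Fin N × Bool)) (l : List U.T) : l ∈ U.St r ↔ l.map Prod.fst = r := by
  induction r generalizing l with
  | nil => simp [St]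
  | cons a r ih =>
    have h : U.St (a :: r) = (U.St r).flatMap fun l =>
      (List.finRange U.c).map fun k => (a, k) :: l := rfl
    rw [h, List.mem_flatMap]
    constructor
    · rintro ⟨l', hl', hl⟩
      rw [List.mem_map] at hl
      obtain ⟨k, -, rfl⟩ := hl
      rw [List.map_cons, (ih l').1 hl']
    · intro hl
      cases l with
      | nil => simp at hl
      | cons t l' =>
        rw [List.map_cons, List.cons.injEq] at hl
        refine ⟨l', (ih l').2 hl.2, ?_⟩
        rw [List.mem_map]
        refine ⟨t.2, List.mem_finRange _, ?_⟩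
        rw [← hl.1]

theorem mem_base (s : List U.T × List U.T) : s ∈ U.base ↔
    ∃ a k k', s = ([(a, k)], [(a, k')]) := by
  unfold base
  constructor
  · intro h
    rw [List.mem_flatMap] at h
    obtain ⟨i, -, h⟩ := h
    rw [List.mem_flatMap] at h
    obtain ⟨b, -, h⟩ := h
    rw [List.mem_flatMap] at h
    obtain ⟨k, -, h⟩ := h
    rw [List.mem_map] at h
    obtain ⟨k', -, h⟩ := h
    exact ⟨(i, b), k, k', h.symm⟩
  · rintro ⟨⟨i, b⟩, k, k', rfl⟩
    rw [List.mem_flatMap]
    refine ⟨i, List.mem_finRange _, ?_⟩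
    rw [List.mem_flatMap]
    refine ⟨b, by cases b <;> simp, ?_⟩
    rw [List.mem_flatMap]
    refine ⟨k, List.mem_finRange _, ?_⟩
    rw [List.mem_map]
    exact ⟨k', List.mem_finRange _, rfl⟩

theorem next_mem (rs : List (List (Fin N × Bool))) :
    ∀ s ∈ U.All rs, ∀ x, U.next s x ∈ U.All rs := by
  intro s hs x
  unfold All at hs ⊢
  rw [List.mem_append] at hs ⊢
  rcases hs with hs | hs
  · left
    rw [mem_base] at hs ⊢
    obtain ⟨a, k, k', rfl⟩ := hs
    exact ⟨a, _, _, rfl⟩
  · right
    rw [List.mem_flatMap] at hs ⊢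
    obtain ⟨r, hr, hs⟩ := hs
    rw [List.mem_map] at hs
    obtain ⟨l, hl, rfl⟩ := hs
    refine ⟨r, hr, ?_⟩
    rw [List.mem_map]
    refine ⟨(U.run l (e16 x).1).2, ?_, rfl⟩
    rw [mem_St] at hl ⊢
    rw [run_map', hl]

theorem val_next (s : List U.T × List U.T) (x : Fin 16) :
    U.valP (U.next s x) = (ssAff (ι := U.ι)).sq.sec (U.valP s) x :=
  Prod.ext (U.run_snd' s.1 (e16 x).1) (U.run_snd' s.2 (e16 x).2)

theorem outp_eq (s : List U.T × List U.T) (x : Fin 16) :
    U.outp s x = e16.symm ((U.run s.1 (e16 x).1).1, (U.run s.2 (e16 x).2).1) := by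
  rw [run_fst', run_fst']
  rfl

theorem All_ne (hN : 0 < N) (rs : List (List (Fin N × Bool))) : U.All rs ≠ [] := by
  obtain ⟨k, -⟩ := U.zero
  have h : (([((⟨0, hN⟩, true), k)], [((⟨0, hN⟩, true), k)]) : List U.T × List U.T) ∈ U.All rs := by
    unfold All
    rw [List.mem_append]
    left
    rw [mem_base]
    exact ⟨_, _, _, rfl⟩
  exact List.ne_nil_of_mem h

end Pool.Agent.H79Iso.Setup
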