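import Pool.Agent.H79Iso.I6
import Pool.Agent.H79Iso.Defs

set_option autoImplicit false

namespace Pool.Agent.H79Iso.Setup
variable {N : ℕ} (U : Setup N)

theorem J9633_valL_lin (l : List U.T) : (U.valL l).lin = FreeGroup.mk (l.map Prod.fst) := by
  induction l with
  | nil => rfl
  | cons t l ih =>
    have h : U.valL (t :: l) = U.val t * U.valL l := by simp [valL]
    rw [h, Aff.mul_lin, ih]
    show FreeGroup.mk [t.1] * FreeGroup.mk (l.map Prod.fst) = _
    rw [FreeGroup.mul_mk]
    rfl

theorem J9633_valL_zero (z : Fin U.c) (hz : U.τ z = 0) (r : List (Fin N × Bool)) :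
    U.valL (r.map fun a => (a, z)) = ⟨FreeGroup.mk r, 0⟩ := by
  apply Aff.ext
  · rw [J9633_valL_lin, List.map_map]
    have : (Prod.fst ∘ fun a : Fin N × Bool => (a, z)) = id := rfl
    rw [this, List.map_id]
  · induction r with
    | nil => rfl
    | cons a r ih =>
      have h : U.valL ((a :: r).map fun a => (a, z)) =
          U.val (a, z) * U.valL (r.map fun a => (a, z)) := by simp [valL]
      rw [h, Aff.mul_tr, ih]
      show U.τ z + mv U.ι _ 0 = 0
      rw [hz, mv_zero, add_zero]

/-- The pairs of pure translations. -/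
def J9633_tr : Multiplicative ((Fin 2 → ℤ) × (Fin 2 → ℤ)) →* Aff U.ι × Aff U.ι where
  toFun v := (⟨1, (Multiplicative.toAdd v).1⟩, ⟨1, (Multiplicative.toAdd v).2⟩)
  map_one' := rfl
  map_mul' v w := by
    apply Prod.ext
    · apply Aff.ext
      · simp
      · simp [mv_one]
    · apply Aff.ext
      · simp
      · simp [mv_one]

/-- The diagonal linear pairs. -/
def J9633_dg : FreeGroup (Fin N) →* Aff U.ι × Aff U.ι where
  toFun f := (⟨f, 0⟩, ⟨f, 0⟩)
  map_one' := rfl
  map_mul' v w := by
    apply Prod.ext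
    · apply Aff.ext
      · simp
      · simp [mv_zero]
    · apply Aff.ext
      · simp
      · simp [mv_zero]

/-- The left linear pairs. -/
def J9633_lf : FreeGroup (Fin N) →* Aff U.ι × Aff U.ι where
  toFun f := (⟨f, 0⟩, 1)
  map_one' := rfl
  map_mul' v w := by
    apply Prod.ext
    · apply Aff.ext
      · simp
      · simp [mv_zero]
    · simp

theorem J9633_conj (g n : FreeGroup (Fin N)) :
    U.J9633_lf (g * n * g⁻¹) = U.J9633_dg g * U.J9633_lf n * (U.J9633_dg g)⁻¹ := by
  apply Prod.ext
  · apply Aff.ext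
    · simp [J9633_lf, J9633_dg]
    · simp [J9633_lf, J9633_dg, mv_zero]
  · simp [J9633_lf, J9633_dg]

theorem closure_eq (hN : 0 < N) (rs : List (List (Fin N × Bool))) :
    Subgroup.closure (U.valP '' {s | s ∈ U.All rs}) = U.P rs := by
  obtain ⟨z, hz⟩ := U.zero
  apply le_antisymm
  · rw [Subgroup.closure_le]
    rintro _ ⟨s, hs, rfl⟩
    have hs' : s ∈ U.All rs := hs
    rw [All, List.mem_append] at hs'
    rcases hs' with hs' | hs'
    · rw [mem_base] at hs'
      obtain ⟨a, k, k', rfl⟩ := hs'
      show (U.valL [(a, k)]).lin * (U.valL [(a, k')]).lin⁻¹ ∈ nc rs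
      rw [J9633_valL_lin, J9633_valL_lin]
      show FreeGroup.mk [a] * (FreeGroup.mk [a])⁻¹ ∈ nc rs
      rw [mul_inv_cancel]
      exact one_mem _
    · rw [List.mem_flatMap] at hs'
      obtain ⟨r, hr, hs'⟩ := hs'
      rw [List.mem_map] at hs'
      obtain ⟨l, hl, rfl⟩ := hs'
      rw [mem_St] at hl
      show (U.valL l).lin * (U.valL []).lin⁻¹ ∈ nc rs
      rw [J9633_valL_lin, J9633_valL_lin, hl]
      have h1 : FreeGroup.mk (List.map Prod.fst ([] : List U.T)) = (1 : FreeGroup (Fin N)) := rfl
      rw [h1, inv_one, mul_one]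
      exact Subgroup.subset_normalClosure ⟨r, hr, rfl⟩
  · set C := Subgroup.closure (U.valP '' {s | s ∈ U.All rs}) with hC
    have hbase : ∀ a k k', (((⟨FreeGroup.mk [a], U.τ k⟩ : Aff U.ι),
        (⟨FreeGroup.mk [a], U.τ k'⟩ : Aff U.ι))) ∈ C := by
      intro a k k'
      apply Subgroup.subset_closure
      refine ⟨([(a, k)], [(a, k')]), ?_, ?_⟩
      · show _ ∈ U.All rs
        rw [All, List.mem_append]
        left
        rw [mem_base]
        exact ⟨a, k, k', rfl⟩
      · simp [valP, valL, val]
    have htk : ∀ k k', U.J9633_tr (Multiplicative.ofAdd (U.τ k, U.τ k')) ∈ C := by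
      intro k k'
      have h1 := mul_mem (hbase (⟨0, hN⟩, true) k k') (inv_mem (hbase (⟨0, hN⟩, true) z z))
      convert h1 using 1
      rw [hz]
      apply Prod.ext
      · apply Aff.ext
        · exact (mul_inv_cancel (FreeGroup.mk [((⟨0, hN⟩ : Fin N), true)])).symm
        · simp [J9633_tr, mv_zero]
      · apply Aff.ext
        · exact (mul_inv_cancel (FreeGroup.mk [((⟨0, hN⟩ : Fin N), true)])).symm
        · simp [J9633_tr, mv_zero]
    obtain ⟨k1, hk1⟩ := U.e1
    obtain ⟨k2, hk2⟩ := U.e2
    have htr : ∀ v v' : Fin 2 → ℤ, U.J9633_tr (Multiplicative.ofAdd (v, v')) ∈ C := by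
      intro v v'
      have h1 := htk k1 z
      have h2 := htk k2 z
      have h3 := htk z k1
      have h4 := htk z k2
      have h5 := mul_mem (mul_mem (zpow_mem h1 (v 0)) (zpow_mem h2 (v 1)))
        (mul_mem (zpow_mem h3 (v' 0)) (zpow_mem h4 (v' 1)))
      rw [← map_zpow U.J9633_tr, ← map_zpow U.J9633_tr, ← map_zpow U.J9633_tr,
        ← map_zpow U.J9633_tr, ← map_mul U.J9633_tr, ← map_mul U.J9633_tr,
        ← map_mul U.J9633_tr] at h5
      convert h5 using 2
      rw [hk1, hk2, hz]
      apply Multiplicative.toAdd.injective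
      simp only [toAdd_ofAdd, toAdd_mul, toAdd_zpow]
      apply Prod.ext
      · funext i
        fin_cases i <;> simp
      · funext i
        fin_cases i <;> simp
    have hdg : ∀ f, U.J9633_dg f ∈ C := by
      intro f
      induction f using FreeGroup.induction_on with
      | C1 => rw [map_one]; exact one_mem C
      | of x =>
        have := hbase (x, true) z z
        rw [hz] at this
        exact this
      | inv_of x hx => rw [map_inv]; exact inv_mem hx
      | mul x y hx hy => rw [map_mul]; exact mul_mem hx hy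
    have hlf : nc rs ≤ C.comap U.J9633_lf := by
      have hn : (C.comap U.J9633_lf).Normal := by
        constructor
        intro n hn g
        rw [Subgroup.mem_comap] at hn ⊢
        rw [J9633_conj]
        exact mul_mem (mul_mem (hdg g) hn) (inv_mem (hdg g))
      apply Subgroup.normalClosure_le_normal
      rintro _ ⟨r, hr, rfl⟩
      show U.J9633_lf (FreeGroup.mk r) ∈ C
      apply Subgroup.subset_closure
      refine ⟨(r.map fun a => (a, z), []), ?_, ?_⟩
      · show _ ∈ U.All rs
        rw [All, List.mem_append]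
        right
        rw [List.mem_flatMap]
        refine ⟨r, hr, ?_⟩
        rw [List.mem_map]
        refine ⟨r.map fun a => (a, z), ?_, rfl⟩
        rw [mem_St, List.map_map]
        have : (Prod.fst ∘ fun a : Fin N × Bool => (a, z)) = id := rfl
        rw [this, List.map_id]
      · show (U.valL (r.map fun a => (a, z)), U.valL []) = _
        rw [J9633_valL_zero U z hz]
        rfl
    rintro ⟨⟨f, v⟩, ⟨h, v'⟩⟩ hg
    have hg' : f * h⁻¹ ∈ nc rs := hg
    have h1 := hlf hg'
    rw [Subgroup.mem_comap] at h1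
    have h2 := mul_mem (mul_mem (htr v v') h1) (hdg h)
    convert h2 using 1
    apply Prod.ext
    · apply Aff.ext
      · simp [J9633_tr, J9633_lf, J9633_dg]
      · simp [J9633_tr, J9633_lf, J9633_dg, mv_zero]
    · apply Aff.ext
      · simp [J9633_tr, J9633_lf, J9633_dg]
      · simp [J9633_tr, J9633_lf, J9633_dg, mv_zero]

end Pool.Agent.H79Iso.Setup
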