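import Pool.Agent.H79Iso.Defs

set_option autoImplicit false

namespace Pool.Agent.H79Iso

open Matrix

theorem par {b c d x0 x1 x2 y0 y1 y2 : ℤ} (hne : b ≠ 0 ∨ c ≠ 0 ∨ d ≠ 0)
    (e01 : b * x1 = c * x0) (e02 : b * x2 = d * x0) (e12 : c * x2 = d * x1)
    (f01 : b * y1 = c * y0) (f02 : b * y2 = d * y0) (f12 : c * y2 = d * y1) :
    x0 * y1 = x1 * y0 ∧ x0 * y2 = x2 * y0 ∧ x1 * y2 = x2 * y1 := by
  rcases hne with h | h | h
  · have h2 := pow_ne_zero 2 h
    refine ⟨mul_left_cancel₀ h2 ?_, mul_left_cancel₀ h2 ?_, mul_left_cancel₀ h2 ?_⟩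
    · linear_combination (b * x0) * f01 - (b * y0) * e01
    · linear_combination (b * x0) * f02 - (b * y0) * e02
    · linear_combination e01 * (b * y2) + (c * x0) * f02 - e02 * (b * y1) - (d * x0) * f01
  · have h2 := pow_ne_zero 2 h
    refine ⟨mul_left_cancel₀ h2 ?_, mul_left_cancel₀ h2 ?_, mul_left_cancel₀ h2 ?_⟩
    · linear_combination -e01 * (c * y1) + f01 * (c * x1)
    · linear_combination -e01 * (c * y2) + (b * x1) * f12 - e12 * (c * y0) + (d * x1) * f01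
    · linear_combination f12 * (c * x1) - e12 * (c * y1)
  · have h2 := pow_ne_zero 2 h
    refine ⟨mul_left_cancel₀ h2 ?_, mul_left_cancel₀ h2 ?_, mul_left_cancel₀ h2 ?_⟩
    · linear_combination -e02 * (d * y1) - (b * x2) * f12 + e12 * (d * y0) + (c * x2) * f02
    · linear_combination -e02 * (d * y2) + f02 * (d * x2)
    · linear_combination -e12 * (d * y2) + f12 * (d * x2)

theorem cross {x0 x1 y0 y1 v0 v1 : ℤ} (hv : v0 ≠ 0 ∨ v1 ≠ 0) (h1 : x0 * v0 + x1 * v1 = 0)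
    (h2 : y0 * v0 + y1 * v1 = 0) : x0 * y1 = x1 * y0 := by
  rcases hv with h | h
  · refine mul_left_cancel₀ h ?_
    linear_combination y1 * h1 - x1 * h2
  · refine mul_left_cancel₀ h ?_
    linear_combination x0 * h2 - y0 * h1

/-- entries of the commutation relation -/
theorem entries {X M : Matrix.SpecialLinearGroup (Fin 2) ℤ} (h : X * M = M * X) :
    M 0 1 * X 1 0 = M 1 0 * X 0 1 ∧
    M 0 1 * (X 0 0 - X 1 1) = (M 0 0 - M 1 1) * X 0 1 ∧
    M 1 0 * (X 0 0 - X 1 1) = (M 0 0 - M 1 1) * X 1 0 := by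
  have h0 : (X : Matrix (Fin 2) (Fin 2) ℤ) * (M : Matrix (Fin 2) (Fin 2) ℤ) = (M : Matrix (Fin 2) (Fin 2) ℤ) * (X : Matrix (Fin 2) (Fin 2) ℤ) := by
    rw [← Matrix.SpecialLinearGroup.coe_mul, ← Matrix.SpecialLinearGroup.coe_mul, h]
  have h00 := congrFun (congrFun h0 0) 0
  have h01 := congrFun (congrFun h0 0) 1
  have h10 := congrFun (congrFun h0 1) 0
  simp only [Matrix.mul_apply, Fin.sum_univ_two] at h00 h01 h10
  refine ⟨by linear_combination -h00, by linear_combination h01, by linear_combination -h10⟩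

theorem of_entries {X Y : Matrix.SpecialLinearGroup (Fin 2) ℤ}
    (h1 : X 0 1 * Y 1 0 = X 1 0 * Y 0 1)
    (h2 : X 0 1 * (Y 0 0 - Y 1 1) = (X 0 0 - X 1 1) * Y 0 1)
    (h3 : X 1 0 * (Y 0 0 - Y 1 1) = (X 0 0 - X 1 1) * Y 1 0) : X * Y = Y * X := by
  ext i j
  rw [Matrix.SpecialLinearGroup.coe_mul, Matrix.SpecialLinearGroup.coe_mul]
  fin_cases i <;> fin_cases j <;> simp only [Matrix.mul_apply, Fin.sum_univ_two, Fin.zero_eta,
    Fin.mk_one, Fin.isValue] <;> [linear_combination h1; linear_combination -h2;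
    linear_combination h3; linear_combination -h1]

theorem comm_of_comm {M X Y : Matrix.SpecialLinearGroup (Fin 2) ℤ}
    (hM : M 0 1 ≠ 0 ∨ M 1 0 ≠ 0 ∨ M 0 0 - M 1 1 ≠ 0) (hX : X * M = M * X)
    (hY : Y * M = M * Y) : X * Y = Y * X := by
  obtain ⟨a1, a2, a3⟩ := entries hX
  obtain ⟨b1, b2, b3⟩ := entries hY
  obtain ⟨c1, c2, c3⟩ := par hM a1 a2 a3 b1 b2 b3
  exact of_entries c1 c2 c3

theorem comm_of_fix {X Y : Matrix.SpecialLinearGroup (Fin 2) ℤ} {v : Fin 2 → ℤ} (hv : v ≠ 0)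
    (hX : (X : Matrix (Fin 2) (Fin 2) ℤ).mulVec v = v) (hY : (Y : Matrix (Fin 2) (Fin 2) ℤ).mulVec v = v) : X * Y = Y * X := by
  have hv' : v 0 ≠ 0 ∨ v 1 ≠ 0 := by
    by_contra hcon
    push Not at hcon
    apply hv
    funext i
    fin_cases i
    · exact hcon.1
    · exact hcon.2
  have a0 := congrFun hX 0
  have a1 := congrFun hX 1
  have b0 := congrFun hY 0
  have b1 := congrFun hY 1
  simp only [Matrix.mulVec, dotProduct, Fin.sum_univ_two] at a0 a1 b0 b1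
  have dX : X 0 0 * X 1 1 - X 0 1 * X 1 0 = 1 := by
    have := X.det_coe
    rwa [Matrix.det_fin_two] at this
  have dY : Y 0 0 * Y 1 1 - Y 0 1 * Y 1 0 = 1 := by
    have := Y.det_coe
    rwa [Matrix.det_fin_two] at this
  have A0 : (X 0 0 - 1) * v 0 + X 0 1 * v 1 = 0 := by linear_combination a0
  have A1 : X 1 0 * v 0 + (X 1 1 - 1) * v 1 = 0 := by linear_combination a1
  have B0 : (Y 0 0 - 1) * v 0 + Y 0 1 * v 1 = 0 := by linear_combination b0
  have B1 : Y 1 0 * v 0 + (Y 1 1 - 1) * v 1 = 0 := by linear_combination b1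
  have tX : X 0 0 + X 1 1 = 2 := by
    have := cross hv' A0 A1
    linear_combination dX - this
  have tY : Y 0 0 + Y 1 1 = 2 := by
    have := cross hv' B0 B1
    linear_combination dY - this
  have c1 := cross hv' A0 B0
  have c2 := cross hv' A1 B1
  have c3 := cross hv' A0 B1
  have c4 := cross hv' A1 B0
  apply of_entries
  · linear_combination -c3 - c4 + (Y 1 1 - 1) * tX - (X 1 1 - 1) * tY
  · linear_combination -2 * c1 - X 0 1 * tY + Y 0 1 * tX
  · linear_combination -2 * c2 + X 1 0 * tY - Y 1 0 * tX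

theorem scalar_one {N : ℕ} (ι : FreeGroup (Fin N) →* Matrix.SpecialLinearGroup (Fin 2) ℤ)
    (hι : Function.Injective ι) {f : FreeGroup (Fin N)} (hf : f ≠ 1) :
    (ι f) 0 1 ≠ 0 ∨ (ι f) 1 0 ≠ 0 ∨ (ι f) 0 0 - (ι f) 1 1 ≠ 0 := by
  by_contra hcon
  push Not at hcon
  obtain ⟨h1, h2, h3⟩ := hcon
  have d : (ι f) 0 0 * (ι f) 1 1 - (ι f) 0 1 * (ι f) 1 0 = 1 := by
    have := (ι f).det_coe
    rwa [Matrix.det_fin_two] at this
  have hsq : ι f * ι f = 1 := by
    ext i j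
    rw [Matrix.SpecialLinearGroup.coe_mul, Matrix.SpecialLinearGroup.coe_one]
    fin_cases i <;> fin_cases j <;> simp only [Matrix.mul_apply, Fin.sum_univ_two, Fin.zero_eta,
      Fin.mk_one, Fin.isValue]
    · rw [Matrix.one_apply_eq]
      linear_combination d + (ι f) 0 0 * h3 + 2 * (ι f) 1 0 * h1
    · rw [Matrix.one_apply_ne (by decide)]
      linear_combination ((ι f) 0 0 + (ι f) 1 1) * h1
    · rw [Matrix.one_apply_ne (by decide)]
      linear_combination ((ι f) 0 0 + (ι f) 1 1) * h2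
    · rw [Matrix.one_apply_eq]
      linear_combination d - (ι f) 1 1 * h3 + 2 * (ι f) 1 0 * h1
  apply hf
  have h4 : f ^ 2 = 1 := by
    apply hι
    rw [map_pow, map_one, pow_two, hsq]
  exact sq_eq_one.mp h4

/-- the centraliser of a nontrivial element is commutative -/
theorem cent_comm {N : ℕ} (ι : FreeGroup (Fin N) →* Matrix.SpecialLinearGroup (Fin 2) ℤ)
    (hι : Function.Injective ι) {f x y : FreeGroup (Fin N)} (hf : f ≠ 1) (hx : x * f = f * x)
    (hy : y * f = f * y) : x * y = y * x := by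
  apply hι
  rw [map_mul, map_mul]
  refine comm_of_comm (scalar_one ι hι hf) ?_ ?_
  · rw [← map_mul, hx, map_mul]
  · rw [← map_mul, hy, map_mul]

theorem not_comm {N : ℕ} (hN : 2 ≤ N) : ¬ ∀ x y : FreeGroup (Fin N), x * y = y * x := by
  intro h
  let i0 : Fin N := ⟨0, by omega⟩
  let i1 : Fin N := ⟨1, by omega⟩
  have hne : i1 ≠ i0 := by
    intro e
    have := congrArg Fin.val e
    simp [i0, i1] at this
  let φ : FreeGroup (Fin N) →* Equiv.Perm (Fin 3) :=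
    FreeGroup.lift (fun i => if i = i0 then Equiv.swap 0 1 else Equiv.swap 1 2)
  have h1 := congrArg φ (h (FreeGroup.of i0) (FreeGroup.of i1))
  rw [map_mul, map_mul] at h1
  have e0 : φ (FreeGroup.of i0) = Equiv.swap 0 1 := by simp [φ]
  have e1 : φ (FreeGroup.of i1) = Equiv.swap 1 2 := by simp [φ, hne]
  rw [e0, e1] at h1
  revert h1
  decide

/-- a subgroup of translations which commutes with a complement is trivial -/
theorem trans_bot {N : ℕ} (hN : 2 ≤ N) (ι : FreeGroup (Fin N) →* Matrix.SpecialLinearGroup (Fin 2) ℤ)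
    (hι : Function.Injective ι) (A B : Subgroup (Aff ι))
    (hc : ∀ a ∈ A, ∀ b ∈ B, a * b = b * a) (ht : ∀ g : Aff ι, ∃ a ∈ A, ∃ b ∈ B, g = a * b)
    (hA : ∀ a ∈ A, a.lin = 1) : A = ⊥ := by
  rw [Subgroup.eq_bot_iff_forall]
  intro a ha
  by_contra hne
  have hv : a.tr ≠ 0 := by
    intro h0
    exact hne (Aff.ext (hA a ha) h0)
  have haa : ∀ a' ∈ A, a * a' = a' * a := by
    intro a' ha'
    apply Aff.ext
    · rw [Aff.mul_lin, Aff.mul_lin, hA a ha, hA a' ha']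
    · rw [Aff.mul_tr, Aff.mul_tr, hA a ha, hA a' ha', mv_one, mv_one, add_comm]
  have hcen : ∀ g : Aff ι, a * g = g * a := by
    intro g
    obtain ⟨a', ha', b, hb, rfl⟩ := ht g
    rw [← mul_assoc, haa a' ha', mul_assoc, hc a ha b hb, mul_assoc]
  have hfix : ∀ f : FreeGroup (Fin N), mv ι f a.tr = a.tr := by
    intro f
    have h1 := congrArg Aff.tr (hcen ⟨f, 0⟩)
    rw [Aff.mul_tr, Aff.mul_tr, mv_zero, add_zero, zero_add] at h1
    exact h1.symm
  apply not_comm hN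
  intro x y
  apply hι
  rw [map_mul, map_mul]
  exact comm_of_fix hv (hfix x) (hfix y)

theorem indec {N : ℕ} (hN : 2 ≤ N) (ι : FreeGroup (Fin N) →* Matrix.SpecialLinearGroup (Fin 2) ℤ)
    (hι : Function.Injective ι) (A B : Subgroup (Aff ι))
    (hc : ∀ a ∈ A, ∀ b ∈ B, a * b = b * a) (ht : ∀ g : Aff ι, ∃ a ∈ A, ∃ b ∈ B, g = a * b) :
    A = ⊥ ∨ B = ⊥ := by
  by_cases hA : ∀ a ∈ A, a.lin = 1
  · exact Or.inl (trans_bot hN ι hι A B hc ht hA)
  by_cases hB : ∀ b ∈ B, b.lin = 1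
  · right
    refine trans_bot hN ι hι B A (fun b hb a ha => (hc a ha b hb).symm) ?_ hB
    intro g
    obtain ⟨a, ha, b, hb, e⟩ := ht g
    exact ⟨b, hb, a, ha, by rw [e, hc a ha b hb]⟩
  exfalso
  push Not at hA hB
  obtain ⟨a0, ha0, ha1⟩ := hA
  obtain ⟨b0, hb0, hb1⟩ := hB
  have hcl : ∀ a ∈ A, ∀ b ∈ B, a.lin * b.lin = b.lin * a.lin := by
    intro a ha b hb
    exact congrArg Aff.lin (hc a ha b hb)
  have hAA : ∀ a ∈ A, ∀ a' ∈ A, a.lin * a'.lin = a'.lin * a.lin := by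
    intro a ha a' ha'
    exact cent_comm ι hι hb1 (hcl a ha b0 hb0) (hcl a' ha' b0 hb0)
  have hBB : ∀ b ∈ B, ∀ b' ∈ B, b.lin * b'.lin = b'.lin * b.lin := by
    intro b hb b' hb'
    exact cent_comm ι hι ha1 (hcl a0 ha0 b hb).symm (hcl a0 ha0 b' hb').symm
  apply not_comm hN
  intro x y
  obtain ⟨a, ha, b, hb, e⟩ := ht ⟨x, 0⟩
  obtain ⟨a', ha', b', hb', e'⟩ := ht ⟨y, 0⟩
  have ex : x = a.lin * b.lin := congrArg Aff.lin e
  have ey : y = a'.lin * b'.lin := congrArg Aff.lin e'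
  rw [ex, ey]
  calc a.lin * b.lin * (a'.lin * b'.lin) = a.lin * (b.lin * a'.lin) * b'.lin := by group
    _ = a.lin * (a'.lin * b.lin) * b'.lin := by rw [← hcl a' ha' b hb]
    _ = (a.lin * a'.lin) * (b.lin * b'.lin) := by group
    _ = (a'.lin * a.lin) * (b'.lin * b.lin) := by rw [hAA a ha a' ha', hBB b hb b' hb']
    _ = a'.lin * (a.lin * b'.lin) * b.lin := by group
    _ = a'.lin * (b'.lin * a.lin) * b.lin := by rw [hcl a ha b' hb']
    _ = a'.lin * b'.lin * (a.lin * b.lin) := by group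

end Pool.Agent.H79Iso
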