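import Pool.Agent.H79Iso.Defs

set_option autoImplicit false

namespace Pool.Agent.H79Iso

theorem fibre {K : Type} [Group K] [Nontrivial K]
    (hK : ∀ A B : Subgroup K, (∀ a ∈ A, ∀ b ∈ B, a * b = b * a) →
      (∀ g : K, ∃ a ∈ A, ∃ b ∈ B, g = a * b) → A = ⊥ ∨ B = ⊥)
    (P : Subgroup (K × K)) (h1 : ∀ k : K, ∃ p ∈ P, p.1 = k) (h2 : ∀ k : K, ∃ p ∈ P, p.2 = k)
    (e : (K × K) ≃* P) : P = ⊤ := by
  let f1 : K →* K := (MonoidHom.fst K K).comp (P.subtype.comp (e.toMonoidHom.comp (MonoidHom.inl K K)))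
  let f2 : K →* K := (MonoidHom.snd K K).comp (P.subtype.comp (e.toMonoidHom.comp (MonoidHom.inl K K)))
  let g1 : K →* K := (MonoidHom.fst K K).comp (P.subtype.comp (e.toMonoidHom.comp (MonoidHom.inr K K)))
  let g2 : K →* K := (MonoidHom.snd K K).comp (P.subtype.comp (e.toMonoidHom.comp (MonoidHom.inr K K)))
  have hx : ∀ k : K, ((e (k, 1) : P) : K × K) = (f1 k, f2 k) := fun k => rfl
  have hy : ∀ l : K, ((e (1, l) : P) : K × K) = (g1 l, g2 l) := fun l => rfl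
  have key : ∀ k l : K, ((e (k, l) : P) : K × K) = (f1 k * g1 l, f2 k * g2 l) := by
    intro k l
    have : ((k, l) : K × K) = (k, 1) * (1, l) := by simp
    rw [this, map_mul, Subgroup.coe_mul, hx, hy]
    rfl
  have key' : ∀ k l : K, ((e (k, l) : P) : K × K) = (g1 l * f1 k, g2 l * f2 k) := by
    intro k l
    have : ((k, l) : K × K) = (1, l) * (k, 1) := by simp
    rw [this, map_mul, Subgroup.coe_mul, hx, hy]
    rfl
  have c1 : ∀ k l : K, f1 k * g1 l = g1 l * f1 k := fun k l =>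
    congrArg Prod.fst ((key k l).symm.trans (key' k l))
  have c2 : ∀ k l : K, f2 k * g2 l = g2 l * f2 k := fun k l =>
    congrArg Prod.snd ((key k l).symm.trans (key' k l))
  have hP : ∀ p ∈ P, ∃ k l : K, p = (f1 k * g1 l, f2 k * g2 l) := by
    intro p hp
    obtain ⟨⟨k, l⟩, hkl⟩ := e.surjective ⟨p, hp⟩
    refine ⟨k, l, ?_⟩
    rw [← key, hkl]
  have r1 := hK f1.range g1.range (by
      rintro _ ⟨k, rfl⟩ _ ⟨l, rfl⟩
      exact c1 k l) (by
      intro g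
      obtain ⟨p, hp, hg⟩ := h1 g
      obtain ⟨k, l, rfl⟩ := hP p hp
      exact ⟨f1 k, ⟨k, rfl⟩, g1 l, ⟨l, rfl⟩, hg.symm⟩)
  have r2 := hK f2.range g2.range (by
      rintro _ ⟨k, rfl⟩ _ ⟨l, rfl⟩
      exact c2 k l) (by
      intro g
      obtain ⟨p, hp, hg⟩ := h2 g
      obtain ⟨k, l, rfl⟩ := hP p hp
      exact ⟨f2 k, ⟨k, rfl⟩, g2 l, ⟨l, rfl⟩, hg.symm⟩)
  have triv : ∀ f : K →* K, f.range = ⊥ → ∀ k, f k = 1 := by
    intro f hf k
    have : f k ∈ f.range := ⟨k, rfl⟩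
    rw [hf] at this
    exact Subgroup.mem_bot.mp this
  obtain ⟨u, hu⟩ := exists_ne (1 : K)
  rw [eq_top_iff]
  rintro ⟨a, b⟩ -
  rcases r1 with r1 | r1 <;> rcases r2 with r2 | r2
  · exfalso
    apply hu
    have h : e (u, 1) = e (1, 1) := Subtype.ext (by
      rw [hx, hx, triv f1 r1, triv f2 r2, triv f1 r1, triv f2 r2])
    exact congrArg Prod.fst (e.injective h)
  · obtain ⟨p, hp, hpa⟩ := h1 a
    obtain ⟨k, l, rfl⟩ := hP p hp
    obtain ⟨q, hq, hqb⟩ := h2 b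
    obtain ⟨k', l', rfl⟩ := hP q hq
    simp only [triv f1 r1, triv g2 r2, one_mul, mul_one] at hpa hqb
    have h := (e (k', l)).2
    rw [key, triv f1 r1, triv g2 r2, one_mul, mul_one, hpa, hqb] at h
    exact h
  · obtain ⟨p, hp, hpa⟩ := h1 a
    obtain ⟨k, l, rfl⟩ := hP p hp
    obtain ⟨q, hq, hqb⟩ := h2 b
    obtain ⟨k', l', rfl⟩ := hP q hq
    simp only [triv g1 r1, triv f2 r2, one_mul, mul_one] at hpa hqb
    have h := (e (k, l')).2
    rw [key, triv g1 r1, triv f2 r2, one_mul, mul_one, hpa, hqb] at h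
    exact h
  · exfalso
    apply hu
    have h : e (1, u) = e (1, 1) := Subtype.ext (by
      rw [hy, hy, triv g1 r1, triv g2 r2, triv g1 r1, triv g2 r2])
    exact congrArg Prod.snd (e.injective h)

end Pool.Agent.H79Iso
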