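import Pool.Agent.H79Iso.I1
import Pool.Agent.H79Iso.I2
import Pool.Agent.H79Iso.I3
import Pool.Agent.H79Iso.I4
import Pool.Agent.H79Iso.I5
import Pool.Agent.H79Iso.I6
import Pool.Agent.H79Iso.I7
import Pool.Agent.H79Iso.I8
import Pool.Agent.H79Iso.I9
import Pool.Agent.H79Iso.I10

/-!
# The isomorphism problem for automaton groups is undecidable
-/

set_option autoImplicit false

namespace Pool.Agent.H79Iso

theorem exists_setup (N : ℕ) : Nonempty (Setup N) := by
  obtain ⟨ι, hι⟩ := exists_embedding N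
  obtain ⟨c, τ, nx, h, h0, h1, h2⟩ := exists_box (α := Fin N × Bool)
    (fun a => (ι (FreeGroup.mk [a]) : Matrix (Fin 2) (Fin 2) ℤ))
  exact ⟨⟨ι, hι, c, τ, nx, fun a k x => h a k x, h0, h1, h2⟩⟩

variable {N : ℕ} (U : Setup N)

/-- The automaton of a list of relators. -/
noncomputable def aut (hN : 2 ≤ N) (rs : List (List (Fin N × Bool))) : Automaton :=
  mkAut 16 (by norm_num) (U.All rs) (U.All_ne (by omega) rs) U.next U.outp (U.next_mem rs)

theorem aut_group (hN : 2 ≤ N) (rs : List (List (Fin N × Bool))) :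
    Nonempty ((aut U hN rs).group ≃* U.P rs) := by
  have h := mkAut_group (by norm_num) (U.All rs) (U.All_ne (by omega) rs) U.next U.outp
    (U.next_mem rs) (ssAff (ι := U.ι)).sq (hom_injective U.ι U.inj) U.valP (fun _ _ _ => rfl)
    (fun s _ x => U.val_next s x)
  rw [U.closure_eq (by omega)] at h
  exact h

theorem comp_aut_table (hN : 2 ≤ N) : Computable fun rs => (aut U hN rs).table := by
  refine (U.comp_table).of_eq fun rs => ?_
  refine Eq.trans ?_ (mkAut_table (by norm_num) (U.All rs) (U.All_ne (by omega) rs) U.next U.outp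
    (U.next_mem rs)).symm
  have hb : (instBEqProd : BEq (List U.T × List U.T)) = instBEqOfDecidableEq :=
    lawful_beq_subsingleton _ _
  rw [hb]

/-- The list of all generators. -/
def gens (N : ℕ) : List (List (Fin N × Bool)) := (List.finRange N).map fun i => [(i, true)]

theorem nc_gens : Setup.nc (gens N) = ⊤ := by
  rw [eq_top_iff]
  have h : ∀ i : Fin N, FreeGroup.of i ∈ Setup.nc (gens N) := fun i =>
    Subgroup.subset_normalClosure ⟨[(i, true)], by simp [gens], rfl⟩
  intro x _
  induction x using FreeGroup.induction_on with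
  | C1 => exact one_mem _
  | of i => exact h i
  | inv_of i _ => exact inv_mem (h i)
  | mul x y hx hy => exact mul_mem (hx trivial) (hy trivial)

theorem P_eq_top (rs : List (List (Fin N × Bool))) : U.P rs = ⊤ ↔ Setup.nc rs = ⊤ := by
  constructor
  · intro h
    rw [eq_top_iff]
    intro f _
    have h1 : ((⟨f, 0⟩, 1) : Aff U.ι × Aff U.ι) ∈ U.P rs := by rw [h]; trivial
    have h2 : f * (1 : FreeGroup (Fin N))⁻¹ ∈ Setup.nc rs := h1
    simpa using h2
  · intro h
    rw [eq_top_iff]
    intro g _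
    show g.1.lin * g.2.lin⁻¹ ∈ Setup.nc rs
    rw [h]; trivial

theorem key (hN : 2 ≤ N) (rs : List (List (Fin N × Bool))) :
    Setup.nc rs = ⊤ ↔ Nonempty ((aut U hN rs).group ≃* (aut U hN (gens N)).group) := by
  obtain ⟨e1⟩ := aut_group U hN rs
  obtain ⟨e2⟩ := aut_group U hN (gens N)
  have h2 : U.P (gens N) = ⊤ := (P_eq_top U _).2 nc_gens
  have e3 : U.P (gens N) ≃* (Aff U.ι × Aff U.ι) := by
    rw [h2]; exact Subgroup.topEquiv
  constructor
  · intro h
    have h1 : U.P rs = ⊤ := (P_eq_top U _).2 h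
    have e4 : U.P rs ≃* (Aff U.ι × Aff U.ι) := by
      rw [h1]; exact Subgroup.topEquiv
    exact ⟨e1.trans (e4.trans (e3.symm.trans e2.symm))⟩
  · rintro ⟨e⟩
    have e5 : (Aff U.ι × Aff U.ι) ≃* U.P rs := e3.symm.trans (e2.symm.trans (e.symm.trans e1))
    have hnt : Nontrivial (Aff U.ι) := ⟨1, ⟨1, ![1, 0]⟩, by
      intro h
      have := congrArg (fun g : Aff U.ι => g.tr 0) h
      simp at this⟩
    have hd : ∀ k : Aff U.ι, (k, k) ∈ U.P rs := fun k => by
      show k.lin * k.lin⁻¹ ∈ Setup.nc rs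
      rw [mul_inv_cancel]; exact one_mem _
    exact (P_eq_top U _).1 (fibre (indec hN U.ι U.inj) (U.P rs) (fun k => ⟨(k, k), hd k, rfl⟩)
      (fun k => ⟨(k, k), hd k, rfl⟩) e5)

/-- **Undecidability for a fixed group.** There is a finite invertible automaton `B` over an alphabet
with 16 letters such that no algorithm decides, for finite invertible automata `A` over this
alphabet, whether `G(A)` is isomorphic to `G(B)`. -/
theorem fixed : ∃ B : Automaton, B.n = 16 ∧ ¬ ∃ f : List (List (ℕ × ℕ)) →. Bool, Partrec f ∧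
    ∀ A : Automaton, A.n = 16 → ∃ b ∈ f A.table, (b = true ↔ Nonempty (A.group ≃* B.group)) := by
  obtain ⟨N, hN, rsf, hr, hu⟩ := triv_undecidable
  obtain ⟨U⟩ := exists_setup N
  refine ⟨aut U hN (gens N), rfl, ?_⟩
  rintro ⟨f, hf, h⟩
  apply hu
  choose b hb hb' using fun n => h (aut U hN (rsf n)) rfl
  have hp : Partrec fun n => f (aut U hN (rsf n)).table :=
    hf.comp ((comp_aut_table U hN).comp hr)
  have hc : Computable b := hp.of_eq fun n => Part.eq_some_iff.2 (hb n)
  exact ComputablePred.computable_iff.2 ⟨b, hc, funext fun n => propext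
    ((key U hN (rsf n)).trans (hb' n).symm)⟩

/-- **Undecidability.** No algorithm decides, for two finite invertible automata `A`, `B`, whether
`G(A)` is isomorphic to `G(B)`. -/
theorem main : ¬ ∃ f : List (List (ℕ × ℕ)) × List (List (ℕ × ℕ)) →. Bool, Partrec f ∧
    ∀ A B : Automaton, ∃ b ∈ f (A.table, B.table), (b = true ↔ Nonempty (A.group ≃* B.group)) := by
  rintro ⟨f, hf, h⟩
  obtain ⟨B, -, hB⟩ := fixed
  exact hB ⟨fun t => f (t, B.table),
    hf.comp (Computable.pair Computable.id (Computable.const _)), fun A _ => h A B⟩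

end Pool.Agent.H79Iso
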